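import Mathlib

/-!
# A vertex-transitive digraph of out-degree 2 whose coset presentations all have `|H| ≥ 4`

The digraph is the tensor product of the directed `5`-cycle with the binary de Bruijn digraph on `4`
vertices: vertices `(i, a, b)` with `i ∈ ZMod 5`, `a, b ∈ ZMod 2`, and arcs
`(i, a, b) → (i + 1, b, c)`.  Every automorphism has the form
`(i, a, b) ↦ (i + s, a + u i, b + u (i + 1))` with `u : ZMod 5 → ZMod 2`.  A transitive group of
automorphisms gives a cyclic code `W` of length `5` over `ZMod 2`, containing a vector with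
`u 0 = 1`, `u 1 = 0`; as `1 + t + t² + t³ + t⁴` is irreducible over `ZMod 2`, `W` contains all the
vectors of even weight, and the four of them that vanish at `0` and `1` fix the vertex `(0, 0, 0)`.
-/

set_option autoImplicit false

namespace Pool.Agent.Results.MP_89824e_co.StabilizerFour

/-- The Cayley-coset digraph `D(G, S, H)`: the vertices are the left cosets `g H`, with an arc
`g H → g' H` whenever `g⁻¹ g' ∈ H S H`. -/
def cosetDigraph {G : Type} [Group G] (S : Set G) (H : Subgroup G) : Digraph (G ⧸ H) where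
  Adj x y := ∃ g g' : G, (g : G ⧸ H) = x ∧ (g' : G ⧸ H) = y ∧
    ∃ h ∈ H, ∃ s ∈ S, ∃ h' ∈ H, g⁻¹ * g' = h * s * h'

/-- `e` is an isomorphism from the digraph `D` to the digraph `E`. -/
def IsIso {V W : Type} (D : Digraph V) (E : Digraph W) (e : V ≃ W) : Prop :=
  ∀ x y, D.Adj x y ↔ E.Adj (e x) (e y)

/-- `D` is isomorphic to `D(G, S, H)`, where `S ∩ H = ∅`: a Cayley-coset presentation of `D`. -/
def HasPresentation {V : Type} (D : Digraph V) {G : Type} [Group G] (S : Set G)
    (H : Subgroup G) : Prop :=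
  (∀ s ∈ S, s ∉ H) ∧ ∃ e : (G ⧸ H) ≃ V, IsIso (cosetDigraph S H) D e

/-- `D` is vertex-transitive. -/
def VertexTransitive {V : Type} (D : Digraph V) : Prop :=
  ∀ x y : V, ∃ σ : V ≃ V, IsIso D D σ ∧ σ x = y

/-- The vertices of the example. -/
abbrev VV : Type := ZMod 5 × ZMod 2 × ZMod 2

/-- The example: arcs `(i, a, b) → (i + 1, b, c)`. -/
def DD : Digraph VV where
  Adj x y := y.1 = x.1 + 1 ∧ y.2.1 = x.2.2

lemma DD_adj (x y : VV) : DD.Adj x y ↔ y.1 = x.1 + 1 ∧ y.2.1 = x.2.2 := Iff.rfl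

/-- The map `(i, a, b) ↦ (i + s, a + u i, b + u (i + 1))`. -/
def tau (s : ZMod 5) (u : ZMod 5 → ZMod 2) : VV ≃ VV where
  toFun x := (x.1 + s, x.2.1 + u x.1, x.2.2 + u (x.1 + 1))
  invFun x := (x.1 - s, x.2.1 - u (x.1 - s), x.2.2 - u (x.1 - s + 1))
  left_inv := by
    rintro ⟨i, a, b⟩
    simp
  right_inv := by
    rintro ⟨i, a, b⟩
    simp

lemma tau_iso (s : ZMod 5) (u : ZMod 5 → ZMod 2) : IsIso DD DD (tau s u) := by
  rintro ⟨i, a, b⟩ ⟨j, c, d⟩
  simp only [DD_adj, tau, Equiv.coe_fn_mk]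
  constructor
  · rintro ⟨rfl, rfl⟩
    exact ⟨by ring, rfl⟩
  · rintro ⟨h1, h2⟩
    have h3 : j = i + 1 := by
      have : j + s = (i + 1) + s := by rw [h1]; ring
      exact add_right_cancel this
    subst h3
    exact ⟨rfl, add_right_cancel h2⟩

lemma transitive : VertexTransitive DD := by
  rintro ⟨i, a, b⟩ ⟨j, c, d⟩
  refine ⟨tau (j - i) (fun k => if k = i then c - a else d - b), tau_iso _ _, ?_⟩
  have h : i + 1 ≠ i := by
    intro h
    have : (1 : ZMod 5) = 0 := by
      have h' : i + 1 = i + 0 := by rw [h, add_zero]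
      exact add_left_cancel h'
    exact absurd this (by decide)
  simp [tau, h]

lemma zmod2_inj {f : ZMod 2 → ZMod 2} (hf : Function.Injective f) (a : ZMod 2) :
    f a = a + f 0 := by
  have h01 : f 0 ≠ f 1 := fun h => absurd (hf h) (by decide)
  have key : ∀ a p q : ZMod 2, p ≠ q → (a = 0 → a + p = p) ∧ (a = 1 → a + p = q) := by decide
  have ha : ∀ a : ZMod 2, a = 0 ∨ a = 1 := by decide
  rcases ha a with rfl | rfl
  · exact ((key 0 (f 0) (f 1) h01).1 rfl).symm
  · exact ((key 1 (f 0) (f 1) h01).2 rfl).symm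

/-- The structure of the automorphisms of the example. -/
lemma structure_of_iso {σ : VV ≃ VV} (hσ : IsIso DD DD σ) :
    ∃ (s : ZMod 5) (u : ZMod 5 → ZMod 2), ∀ i a b, σ (i, a, b) = (i + s, a + u i, b + u (i + 1)) := by
  have key : ∀ i a b c, (σ (i + 1, b, c)).1 = (σ (i, a, b)).1 + 1 ∧
      (σ (i + 1, b, c)).2.1 = (σ (i, a, b)).2.2 := by
    intro i a b c
    exact (hσ (i, a, b) (i + 1, b, c)).1 ⟨rfl, rfl⟩
  have key' : ∀ i a b c, (σ (i, b, c)).1 = (σ (i - 1, a, b)).1 + 1 ∧
      (σ (i, b, c)).2.1 = (σ (i - 1, a, b)).2.2 := by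
    intro i a b c
    have := key (i - 1) a b c
    rwa [sub_add_cancel] at this
  -- first coordinate
  have h1 : ∀ i a b a' b', (σ (i, a, b)).1 = (σ (i, a', b')).1 := by
    intro i a b a' b'
    have e1 : (σ (i, a, b)).1 = (σ (i, a, b')).1 := by
      rw [(key' i 0 a b).1, (key' i 0 a b').1]
    have e2 : (σ (i, a, b')).1 = (σ (i, a', b')).1 := by
      have x1 := (key i a b' 0).1
      have x2 := (key i a' b' 0).1
      rw [x1] at x2
      exact add_right_cancel x2
    rw [e1, e2]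
  have h2 : ∀ i, (σ (i, 0, 0)).1 = i + (σ (0, 0, 0)).1 := by
    have hstep : ∀ i, (σ (i + 1, 0, 0)).1 = (σ (i, 0, 0)).1 + 1 := fun i => (key i 0 0 0).1
    have hnat : ∀ n : ℕ, (σ ((n : ZMod 5), 0, 0)).1 = (n : ZMod 5) + (σ (0, 0, 0)).1 := by
      intro n
      induction n with
      | zero => simp
      | succ n ih =>
        have := hstep (n : ZMod 5)
        push_cast
        rw [this, ih]
        ring
    intro i
    have := hnat i.val
    rwa [ZMod.natCast_zmod_val] at this
  -- second coordinate does not depend on b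
  have h3 : ∀ i a b b', (σ (i, a, b)).2.1 = (σ (i, a, b')).2.1 := by
    intro i a b b'
    rw [(key' i 0 a b).2, (key' i 0 a b').2]
  have h4 : ∀ i a b, (σ (i, a, b)).2.2 = (σ (i + 1, b, 0)).2.1 := by
    intro i a b
    rw [(key i a b 0).2]
  have hinj : ∀ i, Function.Injective (fun a : ZMod 2 => (σ (i, a, 0)).2.1) := by
    intro i a a' haa
    simp only at haa
    have : σ (i, a, 0) = σ (i, a', 0) := by
      refine Prod.ext (h1 _ _ _ _ _) (Prod.ext haa ?_)
      rw [h4, h4]
    have := σ.injective this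
    simpa using this
  refine ⟨(σ (0, 0, 0)).1, fun i => (σ (i, 0, 0)).2.1, ?_⟩
  intro i a b
  refine Prod.ext ?_ (Prod.ext ?_ ?_)
  · simp only
    rw [h1 i a b 0 0, h2 i]
  · simp only
    rw [h3 i a b 0]
    exact zmod2_inj (hinj i) a
  · simp only
    rw [h4 i a b]
    exact zmod2_inj (hinj (i + 1)) b

section Action

variable {G : Type} [Group G] {S : Set G} {H : Subgroup G}

lemma coset_smul (g : G) (x y : G ⧸ H) (h : (cosetDigraph S H).Adj x y) :
    (cosetDigraph S H).Adj (g • x) (g • y) := by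
  obtain ⟨a, b, rfl, rfl, h1, hh1, s, hs, h2, hh2, hab⟩ := h
  refine ⟨g * a, g * b, rfl, rfl, h1, hh1, s, hs, h2, hh2, ?_⟩
  rw [← hab]; group

/-- The permutation of the vertices induced by a group element. -/
def act (e : (G ⧸ H) ≃ VV) (g : G) : VV ≃ VV :=
  (e.symm.trans (MulAction.toPerm g)).trans e

lemma act_apply (e : (G ⧸ H) ≃ VV) (g : G) (x : VV) : act e g x = e (g • e.symm x) := rfl

lemma act_mul (e : (G ⧸ H) ≃ VV) (g g' : G) (x : VV) :
    act e (g * g') x = act e g (act e g' x) := by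
  simp [act_apply, mul_smul]

lemma act_one (e : (G ⧸ H) ≃ VV) (x : VV) : act e 1 x = x := by
  simp [act_apply]

lemma act_inv (e : (G ⧸ H) ≃ VV) (g : G) {x y : VV} (h : act e g x = y) : act e g⁻¹ y = x := by
  rw [← h, ← act_mul, inv_mul_cancel, act_one]

lemma act_iso {e : (G ⧸ H) ≃ VV} (he : IsIso (cosetDigraph S H) DD e) (g : G) :
    IsIso DD DD (act e g) := by
  intro x y
  constructor
  · intro h
    have h1 : (cosetDigraph S H).Adj (e.symm x) (e.symm y) := by
      rw [he]; simpa using h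
    have h2 := coset_smul g _ _ h1
    rw [he] at h2
    exact h2
  · intro h
    have h1 : (cosetDigraph S H).Adj (g • e.symm x) (g • e.symm y) := by
      rw [he]; exact h
    have h2 := coset_smul g⁻¹ _ _ h1
    rw [inv_smul_smul, inv_smul_smul, he] at h2
    simpa using h2

lemma act_trans (e : (G ⧸ H) ≃ VV) (x y : VV) : ∃ g, act e g x = y := by
  obtain ⟨g, hg⟩ := MulAction.exists_smul_eq G (e.symm x) (e.symm y)
  exact ⟨g, by rw [act_apply, hg]; simp⟩

/-- `u` is in the code of `G`: some group element acts as `(i, a, b) ↦ (i, a + u i, b + u (i+1))`. -/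
def InW (e : (G ⧸ H) ≃ VV) (u : ZMod 5 → ZMod 2) : Prop :=
  ∃ g : G, ∀ i a b, act e g (i, a, b) = (i, a + u i, b + u (i + 1))

lemma InW_zero (e : (G ⧸ H) ≃ VV) : InW e (fun _ => 0) :=
  ⟨1, fun i a b => by rw [act_one]; simp⟩

lemma InW_add {e : (G ⧸ H) ≃ VV} {u v : ZMod 5 → ZMod 2} (hu : InW e u) (hv : InW e v) :
    InW e (fun i => u i + v i) := by
  obtain ⟨g, hg⟩ := hu
  obtain ⟨h, hh⟩ := hv
  refine ⟨g * h, fun i a b => ?_⟩
  rw [act_mul, hh, hg]
  refine Prod.ext rfl (Prod.ext ?_ ?_)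
  · simp only; ring
  · simp only; ring

lemma InW_shift {e : (G ⧸ H) ≃ VV} (he : IsIso (cosetDigraph S H) DD e) {u : ZMod 5 → ZMod 2}
    (hu : InW e u) : InW e (fun i => u (i - 1)) := by
  obtain ⟨h, hh⟩ := hu
  obtain ⟨g, hg⟩ := act_trans e (0, 0, 0) (1, 0, 0)
  obtain ⟨s, w, hw⟩ := structure_of_iso (act_iso he g)
  have hs : s = 1 := by
    have := hw 0 0 0
    rw [hg] at this
    have := congrArg Prod.fst this
    simpa using this.symm
  subst hs
  have hinv : ∀ i a b, act e g⁻¹ (i, a, b) = (i - 1, a - w (i - 1), b - w i) := by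
    intro i a b
    apply act_inv
    rw [hw]
    simp
  refine ⟨g * h * g⁻¹, fun i a b => ?_⟩
  rw [act_mul, act_mul, hinv, hh, hw]
  refine Prod.ext ?_ (Prod.ext ?_ ?_)
  · simp
  · simp only; ring
  · simp only [sub_add_cancel]
    have : i + 1 - 1 = i := by ring
    rw [this]; ring

lemma InW_smul {e : (G ⧸ H) ≃ VV} {u : ZMod 5 → ZMod 2} (hu : InW e u) (c : ZMod 2) :
    InW e (fun i => c * u i) := by
  have hc : ∀ c : ZMod 2, c = 0 ∨ c = 1 := by decide
  rcases hc c with rfl | rfl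
  · simpa using InW_zero e
  · simpa using hu

lemma code : ∀ (u2 u3 u4 t0 t1 t2 t3 t4 : ZMod 2), t0 + t1 + t2 + t3 + t4 = 0 →
    ∃ c0 c1 c2 c3 c4 : ZMod 2,
      c0 * 1 + c1 * u4 + c2 * u3 + c3 * u2 + c4 * 0 = t0 ∧
      c0 * 0 + c1 * 1 + c2 * u4 + c3 * u3 + c4 * u2 = t1 ∧
      c0 * u2 + c1 * 0 + c2 * 1 + c3 * u4 + c4 * u3 = t2 ∧
      c0 * u3 + c1 * u2 + c2 * 0 + c3 * 1 + c4 * u4 = t3 ∧
      c0 * u4 + c1 * u3 + c2 * u2 + c3 * 0 + c4 * 1 = t4 := by
  decide +kernel

lemma InW_even {e : (G ⧸ H) ≃ VV} (he : IsIso (cosetDigraph S H) DD e) (t : ZMod 5 → ZMod 2)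
    (ht : t 0 + t 1 + t 2 + t 3 + t 4 = 0) : InW e t := by
  obtain ⟨g, hg⟩ := act_trans e (0, 0, 0) (0, 1, 0)
  obtain ⟨s, u, hu⟩ := structure_of_iso (act_iso he g)
  have hgu := hu 0 0 0
  rw [hg] at hgu
  have hs : s = 0 := by
    have := congrArg Prod.fst hgu
    simpa using this.symm
  have hu0 : u 0 = 1 := by
    have := congrArg (fun x : VV => x.2.1) hgu
    simpa using this.symm
  have hu1 : u 1 = 0 := by
    have := congrArg (fun x : VV => x.2.2) hgu
    simpa using this.symm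
  subst hs
  have hW0 : InW e u := ⟨g, fun i a b => by rw [hu]; simp⟩
  have hW1 := InW_shift he hW0
  have hW2 := InW_shift he hW1
  have hW3 := InW_shift he hW2
  have hW4 := InW_shift he hW3
  obtain ⟨c0, c1, c2, c3, c4, e0, e1, e2, e3, e4⟩ :=
    code (u 2) (u 3) (u 4) (t 0) (t 1) (t 2) (t 3) (t 4) ht
  have := InW_add (InW_add (InW_add (InW_add (InW_smul hW0 c0) (InW_smul hW1 c1))
    (InW_smul hW2 c2)) (InW_smul hW3 c3)) (InW_smul hW4 c4)
  convert this using 1
  funext i
  fin_cases i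
  · show t 0 = c0 * u 0 + c1 * u 4 + c2 * u 3 + c3 * u 2 + c4 * u 1
    rw [hu0, hu1]; exact e0.symm
  · show t 1 = c0 * u 1 + c1 * u 0 + c2 * u 4 + c3 * u 3 + c4 * u 2
    rw [hu0, hu1]; exact e1.symm
  · show t 2 = c0 * u 2 + c1 * u 1 + c2 * u 0 + c3 * u 4 + c4 * u 3
    rw [hu0, hu1]; exact e2.symm
  · show t 3 = c0 * u 3 + c1 * u 2 + c2 * u 1 + c3 * u 0 + c4 * u 4
    rw [hu0, hu1]; exact e3.symm
  · show t 4 = c0 * u 4 + c1 * u 3 + c2 * u 2 + c3 * u 1 + c4 * u 0
    rw [hu0, hu1]; exact e4.symm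

/-- The four even vectors vanishing at `0` and `1`. -/
def vec (p : ZMod 2 × ZMod 2) : ZMod 5 → ZMod 2 :=
  fun i => if i = 2 then p.1 else if i = 3 then p.2 else if i = 4 then p.1 + p.2 else 0

lemma four_le [Finite G] {e : (G ⧸ H) ≃ VV} (he : IsIso (cosetDigraph S H) DD e) :
    4 ≤ Nat.card H := by
  have hW : ∀ p, InW e (vec p) := by
    intro p
    refine InW_even he _ ?_
    have : ∀ p : ZMod 2 × ZMod 2, vec p 0 + vec p 1 + vec p 2 + vec p 3 + vec p 4 = 0 := by decide
    exact this p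
  choose g hg using hW
  obtain ⟨k, hk⟩ := act_trans e (e ((1 : G) : G ⧸ H)) (0, 0, 0)
  have hmem : ∀ p, k⁻¹ * g p * k ∈ H := by
    intro p
    have h1 : act e (k⁻¹ * g p * k) (e ((1 : G) : G ⧸ H)) = e ((1 : G) : G ⧸ H) := by
      rw [act_mul, act_mul, hk, hg]
      have hv : ∀ p : ZMod 2 × ZMod 2, vec p 0 = 0 ∧ vec p (0 + 1) = 0 := by decide
      rw [(hv p).1, (hv p).2]
      simpa using act_inv e k hk
    rw [act_apply, e.symm_apply_apply] at h1
    have h2 := e.injective h1
    have h3 : ((k⁻¹ * g p * k : G) : G ⧸ H) = ((1 : G) : G ⧸ H) := by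
      have : (k⁻¹ * g p * k) • ((1 : G) : G ⧸ H) = ((k⁻¹ * g p * k * 1 : G) : G ⧸ H) := rfl
      rw [this, mul_one] at h2
      exact h2
    have h4 := QuotientGroup.eq.1 h3.symm
    rwa [inv_one, one_mul] at h4
  have hinj : Function.Injective (fun p => (⟨k⁻¹ * g p * k, hmem p⟩ : H)) := by
    intro p q hpq
    have h1 : k⁻¹ * g p * k = k⁻¹ * g q * k := congrArg Subtype.val hpq
    have h2 : g p = g q := by
      have := mul_right_cancel h1
      exact mul_left_cancel this
    have h3 : ∀ i a b, ((i, a + vec p i, b + vec p (i + 1)) : VV) =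
        (i, a + vec q i, b + vec q (i + 1)) := by
      intro i a b
      rw [← hg p, ← hg q, h2]
    have h4 := h3 2 0 0
    have hp : ∀ p : ZMod 2 × ZMod 2, vec p 2 = p.1 ∧ vec p (2 + 1) = p.2 := by decide
    rw [(hp p).1, (hp q).1, (hp p).2, (hp q).2] at h4
    simp only [zero_add, Prod.mk.injEq, true_and] at h4
    exact Prod.ext h4.1 h4.2
  have h5 := Nat.card_le_card_of_injective _ hinj
  have h6 : Nat.card (ZMod 2 × ZMod 2) = 4 := by
    rw [Nat.card_eq_fintype_card]; decide
  rw [h6] at h5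
  exact h5

end Action

/-- Sabidussi's construction for the example: it does have a Cayley-coset presentation. -/
lemma exists_presentation : ∃ (G : Type) (_ : Group G) (_ : Finite G) (S : Set G) (H : Subgroup G),
    HasPresentation DD S H := by
  let A : Subgroup (Equiv.Perm VV) :=
    { carrier := {σ | IsIso DD DD σ}
      mul_mem' := by
        intro σ ρ hσ hρ x y
        rw [hρ x y, hσ (ρ x) (ρ y)]
        rfl
      one_mem' := fun x y => Iff.rfl
      inv_mem' := by
        intro σ hσ x y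
        rw [hσ (σ⁻¹ x) (σ⁻¹ y)]
        simp }
  let v0 : VV := (0, 0, 0)
  let H : Subgroup A := MulAction.stabilizer A v0
  have htr : ∀ x : VV, ∃ σ : A, σ • v0 = x := by
    intro x
    obtain ⟨σ, h1, h2⟩ := transitive v0 x
    exact ⟨⟨σ, h1⟩, h2⟩
  let e : (A ⧸ H) ≃ VV := Equiv.ofBijective (MulAction.ofQuotientStabilizer A v0)
    ⟨MulAction.injective_ofQuotientStabilizer A v0, fun x => by
      obtain ⟨σ, hσ⟩ := htr x
      exact ⟨(σ : A ⧸ H), hσ⟩⟩
  have he : ∀ g : A, e (g : A ⧸ H) = g • v0 := by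
    intro g
    rfl
  have hiso : ∀ (g : A) (x y : VV), DD.Adj x y ↔ DD.Adj (g • x) (g • y) := fun g x y => g.2 x y
  refine ⟨A, inferInstance, inferInstance, {s : A | DD.Adj v0 (s • v0)}, H, ?_, e, ?_⟩
  · intro s hs hsH
    have h1 : s • v0 = v0 := hsH
    have h2 : DD.Adj v0 (s • v0) := hs
    rw [h1] at h2
    exact absurd h2.1 (by decide)
  · intro x y
    constructor
    · rintro ⟨g, g', rfl, rfl, h, hh, s, hs, h', hh', hgg⟩
      rw [he, he]
      have hg' : g' = g * (h * s * h') := by rw [← hgg]; group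
      have hfix : h • v0 = v0 := hh
      have hfix' : h' • v0 = v0 := hh'
      rw [hg']
      have e1 : (g * (h * s * h')) • v0 = g • (h • (s • v0)) := by
        rw [mul_smul, mul_smul, mul_smul, hfix']
      rw [e1, ← hiso g]
      have h2 := (hiso h v0 (s • v0)).1 hs
      rwa [hfix] at h2
    · intro hxy
      obtain ⟨g, rfl⟩ := QuotientGroup.mk_surjective x
      obtain ⟨g', rfl⟩ := QuotientGroup.mk_surjective y
      have hxy' : DD.Adj (g • v0) (g' • v0) := hxy
      refine ⟨g, g', rfl, rfl, 1, H.one_mem, g⁻¹ * g', ?_, 1, H.one_mem, by group⟩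
      show DD.Adj v0 ((g⁻¹ * g') • v0)
      rw [hiso g, mul_smul, smul_inv_smul]
      exact hxy'

lemma out_two (v : VV) : Nat.card {w // DD.Adj v w} = 2 := by
  obtain ⟨i, a, b⟩ := v
  have e : Function.Bijective
      (fun c : ZMod 2 => (⟨(i + 1, b, c), rfl, rfl⟩ : {w // DD.Adj (i, a, b) w})) := by
    constructor
    · intro c c' h
      have h1 : ((i + 1, b, c) : VV) = (i + 1, b, c') := congrArg Subtype.val h
      simpa using h1
    · rintro ⟨⟨j, c, d⟩, h1, h2⟩
      refine ⟨d, ?_⟩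
      simp only at h1 h2
      simp [h1, h2]
  have := Nat.card_eq_of_bijective _ e
  rw [← this, Nat.card_eq_fintype_card]
  decide

/-- **Out-degree two does not imply a coset presentation with stabilizer of order at most two.**
There is a finite loopless vertex-transitive digraph of out-degree `2` (on 20 vertices) that has a
Cayley-coset presentation, but in each of its Cayley-coset presentations `D(G, S, H)` by a finite
group `G` the subgroup `H` has order at least `4`. -/
theorem result : ∃ (V : Type) (_ : Fintype V) (D : Digraph V),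
    (∀ v, ¬ D.Adj v v) ∧ VertexTransitive D ∧ (∀ v, Nat.card {w // D.Adj v w} = 2) ∧
    (∃ (G : Type) (_ : Group G) (_ : Finite G) (S : Set G) (H : Subgroup G),
      HasPresentation D S H) ∧
    ∀ (G : Type) [Group G] [Finite G] (S : Set G) (H : Subgroup G),
      HasPresentation D S H → 4 ≤ Nat.card H := by
  refine ⟨VV, inferInstance, DD, ?_, transitive, out_two, exists_presentation, ?_⟩
  · rintro ⟨i, a, b⟩ ⟨h, -⟩
    simp only at h
    have : (0 : ZMod 5) = 1 := by
      have h' : i + 0 = i + 1 := by rw [add_zero]; exact h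
      exact add_left_cancel h'
    exact absurd this (by decide)
  · intro G _ _ S H hP
    obtain ⟨-, e, he⟩ := hP
    exact four_le he

end Pool.Agent.Results.MP_89824e_co.StabilizerFour
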